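import Pool.Agent.Y80.KM.JobDefs

set_option autoImplicit false

/-!
# Identities of alternative algebras of degree four (job ALT1 of project KM)

The coefficients of the linear combinations were found by computer.
-/

namespace Pool.Agent.Y46.KM

open Pool.Agent.Y80.KM

variable {k A : Type*} [Field k] [CharZero k] [NonUnitalNonAssocRing A] [Module k A]
  [IsScalarTower k A A] [SMulCommClass k A A]

/-- The polarised left alternative law. -/
lemma polL (h1 : ∀ a b : A, (a * a) * b = a * (a * b)) (x y z : A) :
    (x * y * z - x * (y * z)) + (y * x * z - y * (x * z)) = 0 := by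
  have e := h1 (x + y) z
  simp only [mul_add, add_mul, h1] at e
  linear_combination (norm := abel) e

/-- The polarised right alternative law. -/
lemma polR (h2 : ∀ a b : A, (b * a) * a = b * (a * a)) (x y z : A) :
    (x * y * z - x * (y * z)) + (x * z * y - x * (z * y)) = 0 := by
  have e := h2 (y + z) x
  simp only [mul_add, add_mul, h2] at e
  linear_combination (norm := abel) e

theorem dop_self (h1 : ∀ a b : A, (a * a) * b = a * (a * b)) (h2 : ∀ a b : A, (b * a) * a = b * (a * a))
    (p r : A) : dop p p r = 0 := by
  have e := h2 p r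
  have e' := polL h1 p r p
  simp only [dop]
  linear_combination (norm := abel) e - e'

theorem dop_cyc (h1 : ∀ a b : A, (a * a) * b = a * (a * b)) (h2 : ∀ a b : A, (b * a) * a = b * (a * a))
    (p q r s : A) : dop (p * q) r s + dop (q * r) p s + dop (r * p) q s = 0 := by
  have hL := polL h1
  have hR := polR h2
  have e0 := congrArg (fun u => p * u) (hR q r s)
  have e1 := hL p q (r * s)
  have e2 := hR r (p * s) q
  have e3 := congrArg (fun u => q * u) (hR r p s)
  have e4 := congrArg (fun u => r * u) (hR p q s)
  have e5 := congrArg (fun u => u * p) (hR q r s)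
  have e6 := congrArg (fun u => u * p) (hL q s r)
  have e7 := hR r (s * q) p
  have e8 := hR q (r * s) p
  have e9 := hR p (q * s) r
  have e10 := hL p r (q * s)
  have e11 := congrArg (fun u => u * q) (hR p r s)
  have e12 := congrArg (fun u => u * q) (hL p s r)
  have e13 := congrArg (fun u => u * q) (hR s p r)
  have e14 := hL (s * r) p q
  have e15 := congrArg (fun u => u * q) (hL p r s)
  have e16 := congrArg (fun u => u * r) (hR p q s)
  have e17 := hL q r (p * s)
  have e18 := hL (s * p) q r
  have e19 := hR q (s * p) r
  have e20 := congrArg (fun u => u * r) (hL p s q)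
  have e21 := hR p (s * r) q
  have e22 := hL (s * q) r p
  simp only [mul_add, add_mul, mul_sub, sub_mul, mul_zero, zero_mul] at *
  simp only [dop, mul_add, add_mul, mul_sub, sub_mul]
  linear_combination (norm := abel)
    - e0 + e1 - e2 - e3 - e4 - e5 + e6 + e7 - e8 - e9 + e10 + e11 - e12 + e13 - e14 - e15 - e16
    + e17 - e18 + e19 + e20 + e21 - e22

theorem dop_mul (h1 : ∀ a b : A, (a * a) * b = a * (a * b)) (h2 : ∀ a b : A, (b * a) * a = b * (a * a))
    (p q r s : A) : dop p q (r * s) = dop p q r * s + r * dop p q s := by
  have hL := polL h1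
  have hR := polR h2
  have e0 := hR (r * p) q s
  have e1 := hL (r * s) p q
  have e2 := hL p s (q * r)
  have e3 := hR s (q * r) p
  have e4 := hL (q * r) s p
  have e5 := hL q r (s * p)
  have e6 := hR r (s * p) q
  have e7 := hR (r * s) p q
  have e8 := congrArg (fun u => u * q) (hR r p s)
  have e9 := hR r (p * s) q
  have e10 := hL (r * q) p s
  have e11 := congrArg (fun u => u * p) (hL q r s)
  have e12 := hL (p * r) q s
  have e13 := hL p r (q * s)
  have e14 := hL (r * s) q p
  have e15 := hR p (q * r) s
  have e16 := congrArg (fun u => p * u) (hL q r s)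
  have e17 := congrArg (fun u => u * p) (hR r q s)
  have e18 := hR r (s * q) p
  have e19 := congrArg (fun u => q * u) (hR r p s)
  have e20 := congrArg (fun u => q * u) (hL p r s)
  simp only [mul_add, add_mul, mul_sub, sub_mul, mul_zero, zero_mul] at *
  simp only [dop, mul_add, add_mul, mul_sub, sub_mul]
  linear_combination (norm := abel)
    e0 - e1 + e2 - e3 + e4 + e5 - e6 + e7 - e8 - e9 - e10 - e11 + e12 + e13 - e14 - e15 - e16 +
    e17 + e18 - e19 + e20

theorem dop_skew (h1 : ∀ a b : A, (a * a) * b = a * (a * b)) (h2 : ∀ a b : A, (b * a) * a = b * (a * a))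
    {W : Type*} [AddCommGroup W] [Module k W] (w : A →ₗ[k] A →ₗ[k] W) (hw : ∀ a, w a a = 0)
    (hc : ∀ p q r, w (p * q) r + w (q * r) p + w (r * p) q = 0) (p q r s : A) :
    w (dop p q r) s + w r (dop p q s) + (w (dop r s p) q + w p (dop r s q)) = 0 := by
  have hL := polL h1
  have hR := polR h2
  have hs : ∀ x y : A, w x y + w y x = 0 := by
    intro x y
    have e := hw (x + y)
    simp only [map_add, LinearMap.add_apply, hw, zero_add, add_zero] at e
    rw [add_comm]
    exact e
  have e0 := hc (p * s) r q
  have e1 := hc (p * r) s q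
  have e2 := hc (r * q) p s
  have e3 := hc (p * q) r s
  have e4 := hs (p * s) (r * q)
  have e5 := hs (p * (q * s)) r
  have e6 := congrArg (fun u => w u s) (hR p q r)
  have e7 := hs (q * s * r) p
  have e8 := hc (q * s) r p
  have e9 := hs (r * p) (q * s)
  have e10 := hs (s * p * q) r
  have e11 := hs (r * (q * s)) p
  have e12 := congrArg (fun u => w u p) (hL q r s)
  have e13 := hs (q * r * s) p
  have e14 := hs (r * q * s) p
  have e15 := hs (p * (s * q)) r
  have e16 := congrArg (fun u => w u q) (hR r p s)
  have e17 := hc (s * q) p r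
  have e18 := hs (p * r) (s * q)
  have e19 := hs (r * (s * q)) p
  have e20 := hc (r * p) q s
  have e21 := hs (q * (p * s)) r
  have e22 := congrArg (fun u => w u r) (hL p s q)
  have e23 := hs (s * q * p) r
  have e24 := hs (s * (r * q)) p
  have e25 := hs (p * s * q) r
  have e26 := hc (r * s) p q
  have e27 := hs (p * q) (r * s)
  simp only [map_add, map_sub, LinearMap.add_apply, LinearMap.sub_apply, map_zero,
    LinearMap.zero_apply] at *
  simp only [dop, map_add, map_sub, LinearMap.add_apply, LinearMap.sub_apply]
  linear_combination (norm := abel)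
    e0 - e1 + e2 + e3 - e4 + e5 - e6 + e7 - e8 + e9 - e10 + e11 + e12 - e13 - e14 + e15 - e16 -
    e17 + e18 + e19 - e20 - e21 + e22 + e23 - e24 - e25 + e26 - e27

end Pool.Agent.Y46.KM
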